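import Pool.Agent.helper95.AP.SpecL

/-! AP, block L, row LCQ: assembly of the local counts. -/

set_option autoImplicit false

namespace Pool.Agent.APL

open Finset NumberField Pool.Agent.helper3.FT Pool.Agent.helper47.RA Pool.Agent.T5 Pool.Agent.AP

lemma LCQ_prime {w q : ℕ} (h : q ∈ pr w) : q.Prime ∧ q ≤ w := by
  unfold pr at h
  have h1 := mem_filter.1 h
  have h2 := mem_range.1 h1.1
  exact ⟨h1.2, by omega⟩

lemma LCQ_sqf {w q : ℕ} (hq : q ∈ pr w) : ¬ q ^ 2 ∣ PP w := by
  intro h
  have hqp := (LCQ_prime hq).1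
  unfold PP at h
  rw [← mul_prod_erase (pr w) (fun x => x) hq, sq] at h
  have h1 : q ∣ ∏ x ∈ (pr w).erase q, x := Nat.dvd_of_mul_dvd_mul_left hqp.pos h
  obtain ⟨p, hp, hdvd⟩ := (hqp.prime.dvd_finsetProd_iff _).1 h1
  have hp1 := mem_erase.1 hp
  have hpp := (LCQ_prime hp1.2).1
  exact hp1.1 ((Nat.prime_dvd_prime_iff_eq hqp hpp).1 hdvd).symm

theorem LCQ (hLKO : LKO_stmt) (hLKP : LKP_stmt) (hLTA : LTA_stmt) (hLTB : LTB_stmt) (hLTC : LTC_stmt)
    (hLNB : LNB_stmt) : LCQ_stmt := by
  classical
  intro w p r z y q hw hpo hp3 hr hz hy hcop hq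
  obtain ⟨hqp, hqw⟩ := LCQ_prime hq
  obtain ⟨hJ, h8⟩ := hLNB r z p hpo
  have hr2 : ¬ q ^ 2 ∣ r := fun h => LCQ_sqf hq (h.trans hr)
  have hex : ex w y q = 2 * y.factorization q + aq q := by
    unfold ex
    rw [if_pos hqw]
  rw [hex]
  have hy0 : y ≠ 0 := by omega
  -- divisibility of `y`
  have hv0 : ¬ q ∣ y → y.factorization q = 0 := fun h => Nat.factorization_eq_zero_of_not_dvd h
  have hv1 : q ∣ y → 1 ≤ y.factorization q := fun h => (hqp.dvd_iff_one_le_factorization hy0).1 h
  have hcop1 : q ∣ y → ¬ q ∣ r * z := fun h h' => by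
    have h1 := Nat.dvd_gcd h h'
    rw [Nat.Coprime] at hcop
    rw [hcop] at h1
    exact hqp.one_lt.ne' (Nat.dvd_one.1 h1)
  have hn : q ∣ y → ¬ q ∣ r ∧ ¬ q ∣ z ∧ ¬ q ∣ r * z ^ p := fun h => by
    have h1 := hcop1 h
    refine ⟨fun h2 => h1 (h2.mul_right z), fun h2 => h1 (h2.mul_left r), fun h2 => ?_⟩
    rcases (hqp.dvd_mul).1 h2 with h3 | h3
    · exact h1 (h3.mul_right z)
    · exact h1 ((hqp.dvd_of_dvd_pow h3).mul_left r)
  by_cases h2 : q = 2
  · subst h2
    have haq : aq 2 = 4 := by
      unfold aq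
      rw [if_pos rfl]
    have hgq : gq 2 r z y = g2 r z y := by
      unfold gq
      rw [if_pos rfl]
    rw [haq, hgq]
    by_cases hdy : 2 ∣ y
    · obtain ⟨h3, h4, h5⟩ := hn hdy
      have h6 := h8 h4
      have h1v := hv1 hdy
      have hnrz : ¬ 2 ∣ r * z := hcop1 hdy
      have hpow : ∀ j : ℕ, j ≤ y.factorization 2 ↔ 2 ^ j ∣ y := fun j =>
        (hqp.pow_dvd_iff_le_factorization hy0).symm
      rcases Nat.lt_or_ge (y.factorization 2) 2 with hv | hv
      · have hv1' : y.factorization 2 = 1 := by omega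
        have hn4 : ¬ 4 ∣ y := by
          have h7 := (hpow 2).not.1 (by omega)
          exact h7
        rw [hv1']
        have hc := hLTB w r (r * z ^ p) hw h5 h3
        have e1 : (2 : ℕ) * 1 + 4 = 6 := rfl
        rw [e1, hc]
        unfold g2
        rw [if_pos hdy, if_neg hnrz, if_neg (show ¬ y % 8 = 0 by omega), if_neg (show ¬ y % 4 = 0 by omega)]
        have h9 : (r * z ^ p) % 4 = 3 ↔ r * z % 4 = 3 := by omega
        by_cases h10 : r * z % 4 = 3
        · rw [if_pos h10, if_pos (h9.2 h10)]
          norm_num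
        · rw [if_neg h10, if_neg (fun h => h10 (h9.1 h))]
          norm_num
      · have h4y : 4 ∣ y := (hpow 2).1 hv
        have hc := hLTC w r (r * z ^ p) (y.factorization 2) hw h5 h3 hv
        rw [hc, h6]
        rcases Nat.lt_or_ge (y.factorization 2) 3 with hv3 | hv3
        · have hv2 : y.factorization 2 = 2 := by omega
          have hn8 : ¬ 8 ∣ y := by
            have h7 := (hpow 3).not.1 (by omega)
            exact h7
          unfold g2
          rw [if_pos hv2, if_pos hdy, if_neg hnrz, if_neg (show ¬ y % 8 = 0 by omega), if_pos (show y % 4 = 0 by omega)]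
          by_cases h10 : r * z % 8 = 1
          · rw [if_pos h10, if_pos h10]
            norm_num
          · rw [if_neg h10, if_neg h10]
            by_cases h11 : r * z % 8 = 5
            · rw [if_pos h11, if_pos h11]
              norm_num
            · rw [if_neg h11, if_neg h11]
              norm_num
        · have h8y : 8 ∣ y := (hpow 3).1 hv3
          unfold g2
          rw [if_neg (show ¬ y.factorization 2 = 2 by omega), if_pos hdy, if_neg hnrz, if_pos (show y % 8 = 0 by omega)]
          by_cases h10 : r * z % 8 = 1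
          · rw [if_pos h10, if_pos h10]
            norm_num
          · rw [if_neg h10, if_neg h10]
            norm_num
    · rw [hv0 hdy]
      have hc := hLTA w r z p hw hp3 (by
        intro h
        exact hr2 h)
      have e1 : (2 : ℕ) ^ (2 * 0 + 4) = 16 := by norm_num
      rw [e1, hc]
      unfold g2
      rw [if_neg hdy]
      by_cases h3 : 2 ∣ r
      · rw [if_pos h3, if_pos h3]
        by_cases h4 : 2 ∣ z
        · rw [if_pos h4, if_pos h4]
          norm_num
        · rw [if_neg h4, if_neg h4]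
          norm_num
      · rw [if_neg h3, if_neg h3]
        by_cases h4 : 2 ∣ z
        · rw [if_pos h4, if_pos h4]
          norm_num
        · rw [if_neg h4, if_neg h4]
          norm_num
  · have haq : aq q = 2 := by
      unfold aq
      rw [if_neg h2]
    have hgq : gq q r z y = go q r z y := by
      unfold gq
      rw [if_neg h2]
    have hq0 : (q : ℝ) ≠ 0 := by
      have := hqp.pos
      positivity
    rw [haq, hgq]
    by_cases hdy : q ∣ y
    · obtain ⟨h3, h4, h5⟩ := hn hdy
      have hc := hLKO w r (r * z ^ p) (y.factorization q) q hqp h2 hqw (hv1 hdy) h5 h3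
      rw [hJ q hqp h4] at hc
      have hc' : (((range (q ^ (2 * y.factorization q + 2))).filter
          (Cq w r (r * z ^ p) (y.factorization q) q)).card : ℝ) =
          (1 + (jacobiSym ((r * z : ℕ) : ℤ) q : ℝ)) * ((q : ℝ) ^ 2 - 1) := by
        exact_mod_cast hc
      rw [hc']
      unfold go
      rw [if_pos hdy, if_neg (hcop1 hdy)]
      field_simp
    · rw [hv0 hdy]
      have hc := hLKP w r z p q hqp h2 hqw hp3 hr2
      have e1 : (2 : ℕ) * 0 + 2 = 2 := rfl
      rw [e1]
      unfold go
      rw [if_neg hdy]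
      by_cases h3 : q ∣ r
      · rw [if_pos h3] at hc ⊢
        by_cases h4 : q ∣ z
        · rw [if_pos h4] at hc ⊢
          have hc' : (((range (q ^ 2)).filter (Cq w r (r * z ^ p) 0 q)).card : ℝ) = 0 := by
            exact_mod_cast hc
          rw [hc', mul_zero]
        · rw [if_neg h4] at hc ⊢
          have hc' : (((range (q ^ 2)).filter (Cq w r (r * z ^ p) 0 q)).card : ℝ) = q := by
            exact_mod_cast hc
          rw [hc']
          field_simp
      · rw [if_neg h3] at hc ⊢
        by_cases h4 : q ∣ z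
        · rw [if_pos h4] at hc ⊢
          have hc' : (((range (q ^ 2)).filter (Cq w r (r * z ^ p) 0 q)).card : ℝ) = (q : ℝ) ^ 2 - q := by
            exact_mod_cast hc
          rw [hc']
          field_simp
        · rw [if_neg h4] at hc ⊢
          rw [hJ q hqp h4] at hc
          have hc' : (((range (q ^ 2)).filter (Cq w r (r * z ^ p) 0 q)).card : ℝ) =
              (q : ℝ) ^ 2 - 1 - (jacobiSym ((r * z : ℕ) : ℤ) q : ℝ) := by
            exact_mod_cast hc
          rw [hc']
          field_simp

end Pool.Agent.APL
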